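import Pool.Agent.Y6.K.Stm

/-! Job EK-UNI: energy conservation and uniqueness for regular solutions of the abstract system. -/

open Set Filter Topology

set_option autoImplicit false

namespace Pool.Agent.Y259.EK

open Pool.Agent.Y6.K Pool.Agent.Y5 Pool.Agent.Y5.D

section Tail

variable {I : Type}

/-- partial sums of a dominated family -/
lemma part_le {f b : I → ℝ} (hf : Summable f) (hb : Summable b) (h : ∀ i, |f i| ≤ b i)
    (F : Finset I) : |∑ i ∈ F, f i - ∑' i, f i| ≤ ∑' i, b i - ∑ i ∈ F, b i := by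
  have h1 : ∑ i ∈ F, (b i - f i) ≤ ∑' i, (b i - f i) :=
    (hb.sub hf).sum_le_tsum F (fun i _ => by have := (abs_le.1 (h i)).2; linarith)
  have h2 : ∑ i ∈ F, (b i + f i) ≤ ∑' i, (b i + f i) :=
    (hb.add hf).sum_le_tsum F (fun i _ => by have := (abs_le.1 (h i)).1; linarith)
  rw [Finset.sum_sub_distrib, hb.tsum_sub hf] at h1
  rw [Finset.sum_add_distrib, hb.tsum_add hf] at h2
  rw [abs_le]
  constructor <;> linarith

end Tail

section Fixed

variable {I : Type} {c : I → I → I → ℝ} {N : I → ℝ} {C M : ℝ} {p q D : ℕ}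

/-- bilinear form of the quadratic term -/
noncomputable def qd2 (c : I → I → I → ℝ) (y u : I → ℝ) (i : I) : ℝ :=
  ∑' p : I × I, c i p.1 p.2 * y p.1 * u p.2

/-- the standing assumptions -/
structure Hyp (c : I → I → I → ℝ) (N : I → ℝ) (C : ℝ) (p q D : ℕ) : Prop where
  C0 : 0 ≤ C
  one : ∀ i, 1 ≤ N i
  size : ∀ i a b, |c i a b| ≤ C * N i ^ p
  summ : Summable (fun i => (N i ^ q)⁻¹)
  anti : ∀ i a b, c i a b = -c b a i
  deg : ∀ i a, ({b | c i a b ≠ 0}.Finite ∧ {b | c i a b ≠ 0}.ncard ≤ D) ∧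
    {b | c i b a ≠ 0}.Finite ∧ {b | c i b a ≠ 0}.ncard ≤ D

/-- decay -/
def Dec (N : I → ℝ) (p q : ℕ) (M : ℝ) (x : I → ℝ) : Prop := ∀ i, N i ^ (p + q) * |x i| ≤ M

variable (H : Hyp c N C p q D)

include H

lemma Npos (i : I) : 0 < N i := lt_of_lt_of_le one_pos (H.one i)

lemma s_pos (i : I) : 0 < (N i ^ q)⁻¹ := inv_pos.2 (pow_pos (Npos H i) _)

lemma Nx {x : I → ℝ} (hx : Dec N p q M x) (i : I) : N i ^ p * |x i| ≤ M * (N i ^ q)⁻¹ := by
  have h := hx i
  have h2 : 0 < N i ^ q := pow_pos (Npos H i) _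
  rw [← div_eq_mul_inv, le_div_iff₀ h2]
  calc N i ^ p * |x i| * N i ^ q = N i ^ (p + q) * |x i| := by rw [pow_add]; ring
    _ ≤ M := h

lemma xs {x : I → ℝ} (hx : Dec N p q M x) (i : I) : |x i| ≤ M * (N i ^ q)⁻¹ := by
  refine le_trans ?_ (Nx H hx i)
  have : 1 ≤ N i ^ p := one_le_pow₀ (H.one i)
  nlinarith [abs_nonneg (x i)]

lemma x_summ {x : I → ℝ} (hx : Dec N p q M x) : Summable (fun i => |x i|) :=
  Summable.of_nonneg_of_le (fun i => abs_nonneg _) (xs H hx) (H.summ.mul_left M)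

lemma M_nonneg {x : I → ℝ} (hx : Dec N p q M x) (i : I) : 0 ≤ M :=
  le_trans (mul_nonneg (pow_nonneg (Npos H i).le _) (abs_nonneg _)) (hx i)

lemma sq_summ {x : I → ℝ} (hx : Dec N p q M x) : Summable (fun i => x i ^ 2) := by
  have h1 := x_summ H hx
  have h2 : Summable (fun i => M * |x i|) := h1.mul_left M
  refine Summable.of_nonneg_of_le (fun i => sq_nonneg _) (fun i => ?_) h2
  have h3 : |x i| ≤ M := by
    refine le_trans ?_ (hx i)
    have : 1 ≤ N i ^ (p + q) := one_le_pow₀ (H.one i)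
    nlinarith [abs_nonneg (x i)]
  rw [← sq_abs, sq]
  exact mul_le_mul_of_nonneg_right h3 (abs_nonneg _)

lemma pair_summ {x y : I → ℝ} {M M' : ℝ} (hx : Dec N p q M x) (hy : Dec N p q M' y) :
    Summable (fun t : I × I => |x t.1| * |y t.2|) :=
  (x_summ H hx).mul_of_nonneg (x_summ H hy) (fun _ => abs_nonneg _) (fun _ => abs_nonneg _)

lemma term_le (i : I) (y u : I → ℝ) (t : I × I) :
    |c i t.1 t.2 * y t.1 * u t.2| ≤ C * N i ^ p * (|y t.1| * |u t.2|) := by
  rw [abs_mul, abs_mul, mul_assoc]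
  exact mul_le_mul_of_nonneg_right (H.size i t.1 t.2) (by positivity)

lemma qd2_summ {y u : I → ℝ} {M M' : ℝ} (hy : Dec N p q M y) (hu : Dec N p q M' u) (i : I) :
    Summable (fun t : I × I => c i t.1 t.2 * y t.1 * u t.2) := by
  refine Summable.of_norm_bounded ((pair_summ H hy hu).mul_left (C * N i ^ p)) (fun t => ?_)
  rw [Real.norm_eq_abs]
  exact term_le H i y u t

lemma sum_abs_le {x : I → ℝ} (hx : Dec N p q M x) :
    ∑' i, |x i| ≤ M * ∑' i, (N i ^ q)⁻¹ := by
  rw [← tsum_mul_left]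
  exact (x_summ H hx).tsum_le_tsum (xs H hx) (H.summ.mul_left M)

lemma qd2_le {y u : I → ℝ} {M M' : ℝ} (hy : Dec N p q M y) (hu : Dec N p q M' u) (i : I) :
    |qd2 c y u i| ≤ C * N i ^ p * ((∑' a, |y a|) * ∑' b, |u b|) := by
  have h1 : (∑' a, |y a|) * ∑' b, |u b| = ∑' t : I × I, |y t.1| * |u t.2| :=
    (x_summ H hy).tsum_mul_tsum (x_summ H hu) (pair_summ H hy hu)
  rw [h1, ← tsum_mul_left, qd2, ← Real.norm_eq_abs]
  refine tsum_of_norm_bounded (((pair_summ H hy hu).mul_left _).hasSum) (fun t => ?_)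
  rw [Real.norm_eq_abs]
  exact term_le H i y u t

/-- the triple sums -/
lemma trip_summ {x y u : I → ℝ} {M M' M'' : ℝ} (hx : Dec N p q M x) (hy : Dec N p q M' y)
    (hu : Dec N p q M'' u) :
    Summable (fun t : I × (I × I) => x t.1 * (c t.1 t.2.1 t.2.2 * y t.2.1 * u t.2.2)) := by
  have h0 : Summable (fun i => N i ^ p * |x i|) :=
    Summable.of_nonneg_of_le (fun i => mul_nonneg (pow_nonneg (Npos H i).le _) (abs_nonneg _))
      (Nx H hx) (H.summ.mul_left M)
  have h1 : Summable (fun t : I × (I × I) => (N t.1 ^ p * |x t.1|) * (|y t.2.1| * |u t.2.2|)) :=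
    h0.mul_of_nonneg (pair_summ H hy hu)
      (fun i => mul_nonneg (pow_nonneg (Npos H i).le _) (abs_nonneg _))
      (fun t => mul_nonneg (abs_nonneg _) (abs_nonneg _))
  refine Summable.of_norm_bounded (h1.mul_left C) (fun t => ?_)
  rw [Real.norm_eq_abs, abs_mul]
  have := mul_le_mul_of_nonneg_left (term_le H t.1 y u t.2) (abs_nonneg (x t.1))
  calc _ ≤ _ := this
    _ = _ := by ring

lemma trip_eq {x y u : I → ℝ} {M M' M'' : ℝ} (hx : Dec N p q M x) (hy : Dec N p q M' y)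
    (hu : Dec N p q M'' u) :
    ∑' i, x i * qd2 c y u i
      = ∑' t : I × (I × I), x t.1 * (c t.1 t.2.1 t.2.2 * y t.2.1 * u t.2.2) := by
  rw [(trip_summ H hx hy hu).tsum_prod]
  congr 1
  ext i
  rw [qd2, ← tsum_mul_left]

omit H in
/-- exchange of the first and the last index -/
def exch (I : Type) : I × (I × I) ≃ I × (I × I) where
  toFun t := (t.2.2, (t.2.1, t.1))
  invFun t := (t.2.2, (t.2.1, t.1))
  left_inv _ := rfl
  right_inv _ := rfl

lemma exch_eq {x y u : I → ℝ} {M M' M'' : ℝ} (hx : Dec N p q M x) (hy : Dec N p q M' y)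
    (hu : Dec N p q M'' u) :
    ∑' i, x i * qd2 c y u i = - ∑' i, u i * qd2 c y x i := by
  rw [trip_eq H hx hy hu, trip_eq H hu hy hx, ← tsum_neg, ← (exch I).tsum_eq]
  congr 1
  ext t
  simp only [exch, Equiv.coe_fn_mk]
  rw [H.anti]
  ring

lemma anti_zero {x y : I → ℝ} {M M' : ℝ} (hx : Dec N p q M x) (hy : Dec N p q M' y) :
    ∑' i, x i * qd2 c y x i = 0 := by
  have := exch_eq H hx hy hx
  linarith

lemma xq_le {x y u : I → ℝ} {M M' M'' : ℝ} (hx : Dec N p q M x) (hy : Dec N p q M' y)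
    (hu : Dec N p q M'' u) (i : I) :
    |x i * qd2 c y u i| ≤ C * M * ((∑' a, |y a|) * ∑' b, |u b|) * (N i ^ q)⁻¹ := by
  rw [abs_mul]
  have h1 := mul_le_mul_of_nonneg_left (qd2_le H hy hu i) (abs_nonneg (x i))
  have h2 : 0 ≤ (∑' a, |y a|) * ∑' b, |u b| :=
    mul_nonneg (tsum_nonneg fun _ => abs_nonneg _) (tsum_nonneg fun _ => abs_nonneg _)
  have h3 := mul_le_mul_of_nonneg_right (Nx H hx i) (mul_nonneg H.C0 h2)
  calc _ ≤ _ := h1
    _ = N i ^ p * |x i| * (C * ((∑' a, |y a|) * ∑' b, |u b|)) := by ring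
    _ ≤ _ := h3
    _ = _ := by ring

lemma xq_summ {x y u : I → ℝ} {M M' M'' : ℝ} (hx : Dec N p q M x) (hy : Dec N p q M' y)
    (hu : Dec N p q M'' u) : Summable (fun i => x i * qd2 c y u i) := by
  refine Summable.of_norm_bounded
    (H.summ.mul_left (C * M * ((∑' a, |y a|) * ∑' b, |u b|))) (fun i => ?_)
  rw [Real.norm_eq_abs]
  exact xq_le H hx hy hu i

/-- Schur's bound, one half -/
lemma half {w : I → ℝ} (hw : Summable (fun i => w i ^ 2)) (i : I) :
    Summable (fun t : I × I => if c i t.1 t.2 ≠ 0 then w t.1 ^ 2 else 0) ∧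
      ∑' t : I × I, (if c i t.1 t.2 ≠ 0 then w t.1 ^ 2 else 0) ≤ D * ∑' a, w a ^ 2 := by
  classical
  have hfin : ∀ a, {b | c i a b ≠ 0}.Finite := fun a => ((H.deg i a).1).1
  have hs : ∀ a, HasSum (fun b => if c i a b ≠ 0 then w a ^ 2 else 0)
      (({b | c i a b ≠ 0}.ncard : ℝ) * w a ^ 2) := by
    intro a
    have h1 : HasSum (fun b => if c i a b ≠ 0 then w a ^ 2 else 0)
        (∑ b ∈ (hfin a).toFinset, if c i a b ≠ 0 then w a ^ 2 else 0) := by
      apply hasSum_sum_of_ne_finset_zero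
      intro b hb
      have : ¬ (c i a b ≠ 0) := by
        intro h
        exact hb (by simpa using h)
      rw [if_neg this]
    have h2 : (∑ b ∈ (hfin a).toFinset, if c i a b ≠ 0 then w a ^ 2 else 0)
        = (({b | c i a b ≠ 0}.ncard : ℝ) * w a ^ 2) := by
      rw [Finset.sum_congr rfl (g := fun _ => w a ^ 2) (fun b hb => by
        rw [if_pos]; simpa using hb), Finset.sum_const, nsmul_eq_mul,
        Set.ncard_eq_toFinset_card _ (hfin a)]
    rw [h2] at h1
    exact h1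
  have hle : ∀ a, (({b | c i a b ≠ 0}.ncard : ℝ) * w a ^ 2) ≤ D * w a ^ 2 := fun a =>
    mul_le_mul_of_nonneg_right (by exact_mod_cast ((H.deg i a).1).2) (sq_nonneg _)
  have hsa : Summable (fun a => (({b | c i a b ≠ 0}.ncard : ℝ) * w a ^ 2)) :=
    Summable.of_nonneg_of_le (fun a => by positivity) hle (hw.mul_left _)
  have hsum : Summable (fun t : I × I => if c i t.1 t.2 ≠ 0 then w t.1 ^ 2 else 0) := by
    rw [summable_prod_of_nonneg (fun t => by
      show (0 : ℝ) ≤ _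
      split_ifs <;> positivity)]
    refine ⟨fun a => (hs a).summable, ?_⟩
    refine hsa.congr (fun a => ?_)
    exact ((hs a).tsum_eq).symm
  refine ⟨hsum, ?_⟩
  rw [hsum.tsum_prod]
  rw [tsum_congr (fun a => (hs a).tsum_eq), ← tsum_mul_left]
  exact hsa.tsum_le_tsum hle (hw.mul_left _)

/-- Schur's bound, the other half -/
lemma half' {w : I → ℝ} (hw : Summable (fun i => w i ^ 2)) (i : I) :
    Summable (fun t : I × I => if c i t.1 t.2 ≠ 0 then w t.2 ^ 2 else 0) ∧
      ∑' t : I × I, (if c i t.1 t.2 ≠ 0 then w t.2 ^ 2 else 0) ≤ D * ∑' a, w a ^ 2 := by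
  classical
  have hfin : ∀ a, {b | c i b a ≠ 0}.Finite := fun a => ((H.deg i a).2).1
  have hs : ∀ a, HasSum (fun b => if c i b a ≠ 0 then w a ^ 2 else 0)
      (({b | c i b a ≠ 0}.ncard : ℝ) * w a ^ 2) := by
    intro a
    have h1 : HasSum (fun b => if c i b a ≠ 0 then w a ^ 2 else 0)
        (∑ b ∈ (hfin a).toFinset, if c i b a ≠ 0 then w a ^ 2 else 0) := by
      apply hasSum_sum_of_ne_finset_zero
      intro b hb
      have : ¬ (c i b a ≠ 0) := by
        intro h
        exact hb (by simpa using h)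
      rw [if_neg this]
    have h2 : (∑ b ∈ (hfin a).toFinset, if c i b a ≠ 0 then w a ^ 2 else 0)
        = (({b | c i b a ≠ 0}.ncard : ℝ) * w a ^ 2) := by
      rw [Finset.sum_congr rfl (g := fun _ => w a ^ 2) (fun b hb => by
        rw [if_pos]; simpa using hb), Finset.sum_const, nsmul_eq_mul,
        Set.ncard_eq_toFinset_card _ (hfin a)]
    rw [h2] at h1
    exact h1
  have hle : ∀ a, (({b | c i b a ≠ 0}.ncard : ℝ) * w a ^ 2) ≤ D * w a ^ 2 := fun a =>
    mul_le_mul_of_nonneg_right (by exact_mod_cast ((H.deg i a).2).2) (sq_nonneg _)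
  have hsa : Summable (fun a => (({b | c i b a ≠ 0}.ncard : ℝ) * w a ^ 2)) :=
    Summable.of_nonneg_of_le (fun a => by positivity) hle (hw.mul_left _)
  have hsum0 : Summable (fun t : I × I => if c i t.2 t.1 ≠ 0 then w t.1 ^ 2 else 0) := by
    rw [summable_prod_of_nonneg (fun t => by
      show (0 : ℝ) ≤ _
      split_ifs <;> positivity)]
    refine ⟨fun a => (hs a).summable, ?_⟩
    refine hsa.congr (fun a => ?_)
    exact ((hs a).tsum_eq).symm
  have hsum : Summable (fun t : I × I => if c i t.1 t.2 ≠ 0 then w t.2 ^ 2 else 0) :=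
    ((Equiv.prodComm I I).summable_iff (f := fun t : I × I =>
      if c i t.2 t.1 ≠ 0 then w t.1 ^ 2 else 0)).2 hsum0
  refine ⟨hsum, ?_⟩
  have he : ∑' t : I × I, (if c i t.1 t.2 ≠ 0 then w t.2 ^ 2 else 0)
      = ∑' t : I × I, (if c i t.2 t.1 ≠ 0 then w t.1 ^ 2 else 0) :=
    (Equiv.prodComm I I).tsum_eq (fun t : I × I => if c i t.2 t.1 ≠ 0 then w t.1 ^ 2 else 0)
  rw [he, hsum0.tsum_prod]
  rw [tsum_congr (fun a => (hs a).tsum_eq), ← tsum_mul_left]
  exact hsa.tsum_le_tsum hle (hw.mul_left _)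

/-- Schur's bound -/
lemma schur {w : I → ℝ} (hw : Summable (fun i => w i ^ 2)) (i : I) :
    |qd2 c w w i| ≤ C * N i ^ p * (D * ∑' a, w a ^ 2) := by
  classical
  obtain ⟨h1, h2⟩ := half H hw i
  obtain ⟨h3, h4⟩ := half' H hw i
  have hC : 0 ≤ C * N i ^ p := mul_nonneg H.C0 (pow_nonneg (Npos H i).le _)
  have h5 := ((h1.add h3).mul_left (C * N i ^ p / 2))
  have h6 : ‖qd2 c w w i‖ ≤ ∑' t : I × I, C * N i ^ p / 2 *
      ((if c i t.1 t.2 ≠ 0 then w t.1 ^ 2 else 0) + if c i t.1 t.2 ≠ 0 then w t.2 ^ 2 else 0) := by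
    refine tsum_of_norm_bounded h5.hasSum (fun t => ?_)
    rw [Real.norm_eq_abs]
    by_cases h : c i t.1 t.2 = 0
    · simp [h]
    · rw [if_pos h, if_pos h, abs_mul, abs_mul, mul_assoc]
      have h7 := H.size i t.1 t.2
      have h8 : |w t.1| * |w t.2| ≤ (w t.1 ^ 2 + w t.2 ^ 2) / 2 := by
        rw [← sq_abs (w t.1), ← sq_abs (w t.2)]
        nlinarith [sq_nonneg (|w t.1| - |w t.2|)]
      calc |c i t.1 t.2| * (|w t.1| * |w t.2|)
          ≤ (C * N i ^ p) * ((w t.1 ^ 2 + w t.2 ^ 2) / 2) := by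
            apply mul_le_mul h7 h8 (by positivity) hC
        _ = _ := by ring
  rw [tsum_mul_left, h1.tsum_add h3] at h6
  rw [← Real.norm_eq_abs]
  refine h6.trans ?_
  calc C * N i ^ p / 2 * (_ + _) ≤ C * N i ^ p / 2 *
        (D * ∑' a, w a ^ 2 + D * ∑' a, w a ^ 2) :=
        mul_le_mul_of_nonneg_left (add_le_add h2 h4) (by positivity)
    _ = _ := by ring

/-- the full sum for the difference of two solutions -/
lemma diff_le {z z' : I → ℝ} {M : ℝ} (hz : Dec N p q M z) (hz' : Dec N p q M z') :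
    |∑' i, (z i - z' i) * (qd c z i - qd c z' i)|
      ≤ C * D * M * (∑' i, (N i ^ q)⁻¹) * ∑' i, (z i - z' i) ^ 2 := by
  have hw : Dec N p q (M + M) (fun i => z i - z' i) := by
    intro i
    have h1 := hz i
    have h2 := hz' i
    have h3 : |z i - z' i| ≤ |z i| + |z' i| := abs_sub _ _
    have h4 : 0 ≤ N i ^ (p + q) := pow_nonneg (Npos H i).le _
    nlinarith
  have hq : ∀ i, qd c z i - qd c z' i
      = qd2 c (fun a => z a - z' a) z i + qd2 c z' (fun a => z a - z' a) i := by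
    intro i
    have e1 : qd c z i = qd2 c z z i := rfl
    have e2 : qd c z' i = qd2 c z' z' i := rfl
    rw [e1, e2, qd2, qd2, qd2, qd2, ← (qd2_summ H hz hz i).tsum_sub (qd2_summ H hz' hz' i),
      ← (qd2_summ H hw hz i).tsum_add (qd2_summ H hz' hw i)]
    congr 1
    ext t
    ring
  have h1 : ∑' i, (z i - z' i) * (qd c z i - qd c z' i)
      = - ∑' i, z i * qd2 c (fun a => z a - z' a) (fun a => z a - z' a) i := by
    have e : (fun i => (z i - z' i) * (qd c z i - qd c z' i)) = fun i =>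
        (fun a => z a - z' a) i * qd2 c (fun a => z a - z' a) z i
          + (fun a => z a - z' a) i * qd2 c z' (fun a => z a - z' a) i := by
      ext i
      rw [hq i]
      ring
    rw [e, (xq_summ H hw hw hz).tsum_add (xq_summ H hw hz' hw), anti_zero H hw hz', add_zero,
      exch_eq H hw hw hz]
  rw [h1, abs_neg]
  have hE : Summable (fun i => (z i - z' i) ^ 2) := sq_summ H hw
  have hE0 : 0 ≤ ∑' i, (z i - z' i) ^ 2 := tsum_nonneg fun _ => sq_nonneg _
  have h2 : ∀ i, ‖z i * qd2 c (fun a => z a - z' a) (fun a => z a - z' a) i‖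
      ≤ C * D * M * (∑' i, (z i - z' i) ^ 2) * (N i ^ q)⁻¹ := by
    intro i
    rw [Real.norm_eq_abs, abs_mul]
    have h3 := mul_le_mul_of_nonneg_left (schur H hE i) (abs_nonneg (z i))
    have h4 : 0 ≤ C * (D * ∑' i, (z i - z' i) ^ 2) :=
      mul_nonneg H.C0 (mul_nonneg (Nat.cast_nonneg _) hE0)
    have h5 := mul_le_mul_of_nonneg_right (Nx H hz i) h4
    calc _ ≤ _ := h3
      _ = N i ^ p * |z i| * (C * (D * ∑' i, (z i - z' i) ^ 2)) := by ring
      _ ≤ _ := h5
      _ = _ := by ring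
  rw [← Real.norm_eq_abs]
  refine (tsum_of_norm_bounded ((H.summ.mul_left _).hasSum) h2).trans (le_of_eq ?_)
  rw [tsum_mul_left]
  ring

/-- bound of the terms -/
lemma dterm_le {z z' : I → ℝ} {M : ℝ} (hz : Dec N p q M z) (hz' : Dec N p q M z') (i : I) :
    |(z i - z' i) * (qd c z i - qd c z' i)|
      ≤ 4 * C * M ^ 3 * (∑' i, (N i ^ q)⁻¹) ^ 2 * (N i ^ q)⁻¹ := by
  have hM : 0 ≤ M := M_nonneg H hz i
  have hS : 0 ≤ ∑' i, (N i ^ q)⁻¹ := tsum_nonneg fun i => (s_pos H i).le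
  have key : ∀ {u v : I → ℝ}, Dec N p q M u → Dec N p q M v →
      |u i * qd2 c v v i| ≤ C * M ^ 3 * (∑' i, (N i ^ q)⁻¹) ^ 2 * (N i ^ q)⁻¹ := by
    intro u v hu hv
    refine (xq_le H hu hv hv i).trans ?_
    have h1 := sum_abs_le H hv
    have h2 : 0 ≤ ∑' a, |v a| := tsum_nonneg fun _ => abs_nonneg _
    have h3 : (∑' a, |v a|) * (∑' a, |v a|) ≤
        (M * ∑' i, (N i ^ q)⁻¹) * (M * ∑' i, (N i ^ q)⁻¹) := mul_le_mul h1 h1 h2 (by positivity)
    have h4 := mul_le_mul_of_nonneg_left h3 (mul_nonneg H.C0 hM)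
    have h5 := mul_le_mul_of_nonneg_right h4 (s_pos H i).le
    calc _ ≤ _ := h5
      _ = _ := by ring
  have k1 := key hz hz
  have k2 := key hz hz'
  have k3 := key hz' hz
  have k4 := key hz' hz'
  have e : (z i - z' i) * (qd c z i - qd c z' i) = z i * qd2 c z z i - z i * qd2 c z' z' i
      - (z' i * qd2 c z z i - z' i * qd2 c z' z' i) := by
    show (z i - z' i) * (qd2 c z z i - qd2 c z' z' i) = _
    ring
  rw [e]
  have t1 := abs_sub (z i * qd2 c z z i - z i * qd2 c z' z' i)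
    (z' i * qd2 c z z i - z' i * qd2 c z' z' i)
  have t2 := abs_sub (z i * qd2 c z z i) (z i * qd2 c z' z' i)
  have t3 := abs_sub (z' i * qd2 c z z i) (z' i * qd2 c z' z' i)
  linarith

lemma dterm_summ {z z' : I → ℝ} {M : ℝ} (hz : Dec N p q M z) (hz' : Dec N p q M z') :
    Summable (fun i => (z i - z' i) * (qd c z i - qd c z' i)) := by
  refine Summable.of_norm_bounded
    (H.summ.mul_left (4 * C * M ^ 3 * (∑' i, (N i ^ q)⁻¹) ^ 2)) (fun i => ?_)
  rw [Real.norm_eq_abs]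
  exact dterm_le H hz hz' i

end Fixed

section Time

variable {J : Type} {S : ℕ → ℝ} {o : J → ℕ} {σ : J → J} {τ : J → ℝ} {A : ℕ → ℝ}
  {c : Ix J → Ix J → Ix J → ℝ} {N : Ix J → ℝ} {T : ℝ}

/-- the modes of the levels `≤ P` -/
noncomputable def FP (hK : Ker o σ τ A c) (P : ℕ) : Finset (Ix J) :=
  (Finset.range (P + 1)).disjSum (hK.fin P).toFinset

lemma mem_FP (hK : Ker o σ τ A c) (P : ℕ) (i : Ix J) : i ∈ FP hK P ↔ lv o i ≤ P := by
  cases i with
  | inl n => simp [FP, lv, Finset.mem_disjSum]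
  | inr j => simp [FP, lv, Finset.mem_disjSum]

lemma FP_tendsto (hK : Ker o σ τ A c) : Tendsto (FP hK) atTop atTop := by
  apply tendsto_atTop_finset_of_monotone
  · intro P Q h i hi
    rw [mem_FP] at hi ⊢
    exact hi.trans h
  · intro i
    exact ⟨lv o i, (mem_FP hK _ i).2 le_rfl⟩

/-- the skew term does not contribute -/
lemma skew_zero (hK : Ker o σ τ A c) (P : ℕ) (w : Ix J → ℝ) :
    ∑ i ∈ FP hK P, w i * Kz S o σ τ w i = 0 := by
  rw [FP, Finset.sum_disjSum]
  have h0 : ∑ x ∈ Finset.range (P + 1), w (Sum.inl x) * Kz S o σ τ w (Sum.inl x) = 0 := by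
    apply Finset.sum_eq_zero
    intro x _
    simp [Kz]
  rw [h0, zero_add]
  have h1 : ∑ j ∈ (hK.fin P).toFinset, w (Sum.inr j) * Kz S o σ τ w (Sum.inr j)
      = - ∑ j ∈ (hK.fin P).toFinset, w (Sum.inr j) * Kz S o σ τ w (Sum.inr j) := by
    rw [← Finset.sum_neg_distrib]
    refine Finset.sum_nbij' σ σ ?_ ?_ ?_ ?_ ?_
    · intro j hj
      simpa [hK.grp] using hj
    · intro j hj
      simpa [hK.grp] using hj
    · intro j _
      exact hK.inv j
    · intro j _
      exact hK.inv j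
    · intro j _
      simp only [Kz, hK.inv, hK.grp, hK.skew]
      ring
  linarith

lemma Kz_sub (z z' : Ix J → ℝ) (i : Ix J) :
    Kz S o σ τ z i - Kz S o σ τ z' i = Kz S o σ τ (fun a => z a - z' a) i := by
  cases i with
  | inl n => simp [Kz]
  | inr j => simp only [Kz]; ring

lemma deriv_FP (hK : Ker o σ τ A c) {z z' : Ix J → ℝ → ℝ} (hz : KSol S o σ τ c N T z)
    (hz' : KSol S o σ τ c N T z') (P : ℕ) (t : ℝ) (ht : t ∈ Ico 0 T) :
    HasDerivWithinAt (fun r => ∑ i ∈ FP hK P, (z i r - z' i r) ^ 2)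
      (2 * ∑ i ∈ FP hK P, (z i t - z' i t) *
        (qd c (fun a => z a t) i - qd c (fun a => z' a t) i)) (Ico 0 T) t := by
  have h1 : HasDerivWithinAt (fun r => ∑ i ∈ FP hK P, (z i r - z' i r) ^ 2)
      (∑ i ∈ FP hK P, (2 : ℕ) * (z i t - z' i t) ^ (2 - 1) *
        ((Kz S o σ τ (fun a => z a t) i + qd c (fun a => z a t) i)
          - (Kz S o σ τ (fun a => z' a t) i + qd c (fun a => z' a t) i))) (Ico 0 T) t := by
    refine HasDerivWithinAt.fun_sum (fun i _ => ?_)
    exact ((hz.deriv i t ht).sub (hz'.deriv i t ht)).pow 2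
  have h2 := skew_zero (S := S) hK P (fun a => z a t - z' a t)
  have h3 : (∑ i ∈ FP hK P, (2 : ℕ) * (z i t - z' i t) ^ (2 - 1) *
        ((Kz S o σ τ (fun a => z a t) i + qd c (fun a => z a t) i)
          - (Kz S o σ τ (fun a => z' a t) i + qd c (fun a => z' a t) i)))
      = 2 * ∑ i ∈ FP hK P, (z i t - z' i t) *
        (qd c (fun a => z a t) i - qd c (fun a => z' a t) i) := by
    have h4 : (∑ i ∈ FP hK P, (2 : ℕ) * (z i t - z' i t) ^ (2 - 1) *
        ((Kz S o σ τ (fun a => z a t) i + qd c (fun a => z a t) i)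
          - (Kz S o σ τ (fun a => z' a t) i + qd c (fun a => z' a t) i)))
        = 2 * ∑ i ∈ FP hK P, (z i t - z' i t) *
            Kz S o σ τ (fun a => z a t - z' a t) i +
          2 * ∑ i ∈ FP hK P, (z i t - z' i t) *
            (qd c (fun a => z a t) i - qd c (fun a => z' a t) i) := by
      rw [Finset.mul_sum, Finset.mul_sum, ← Finset.sum_add_distrib]
      refine Finset.sum_congr rfl (fun i _ => ?_)
      rw [← Kz_sub]
      push_cast
      ring
    rw [h4, h2]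
    ring
  rw [h3] at h1
  exact h1

/-- the zero solution -/
lemma zero_sol : KSol S o σ τ c N T (fun _ _ => 0) := by
  refine ⟨fun i t _ => ?_, fun k T' _ => ⟨0, fun t _ i => by simp⟩⟩
  have h1 : Kz S o σ τ (fun _ => (0 : ℝ)) i = 0 := by
    cases i <;> simp [Kz]
  have h2 : qd c (fun _ => (0 : ℝ)) i = 0 := by
    simp [qd]
  rw [h1, h2, add_zero]
  exact hasDerivWithinAt_const _ _ _

/-- the standing assumptions follow -/
lemma hyp (hK : Ker o σ τ A c) (hW : Wt o A c N) :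
    ∃ (C : ℝ) (p q D : ℕ), Hyp c N C p q D := by
  obtain ⟨C, p, h1⟩ := hW.size
  obtain ⟨q, h2⟩ := hW.summ
  obtain ⟨D, h3⟩ := hK.deg
  refine ⟨|C|, p, q, D, abs_nonneg _, hW.one, ?_, h2, hK.anti, h3⟩
  intro i a b
  refine (h1 i a b).trans ?_
  exact mul_le_mul_of_nonneg_right (le_abs_self C)
    (pow_nonneg (le_trans zero_le_one (hW.one i)) _)

lemma w_sq_le {C : ℝ} {p q D : ℕ} (H : Hyp c N C p q D) {z z' : Ix J → ℝ} {M : ℝ}
    (hz : Dec N p q M z) (hz' : Dec N p q M z') (i : Ix J) :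
    (z i - z' i) ^ 2 ≤ 4 * M ^ 2 * (N i ^ q)⁻¹ := by
  have hM : 0 ≤ M := M_nonneg H hz i
  have h1 := xs H hz i
  have h2 := xs H hz' i
  have h3 : ∀ {x : Ix J → ℝ}, Dec N p q M x → |x i| ≤ M := by
    intro x hx
    refine le_trans ?_ (hx i)
    have : 1 ≤ N i ^ (p + q) := one_le_pow₀ (H.one i)
    nlinarith [abs_nonneg (x i)]
  have h4 := h3 hz
  have h5 := h3 hz'
  have h6 : |z i - z' i| ≤ |z i| + |z' i| := abs_sub _ _
  have h7 : 0 < (N i ^ q)⁻¹ := s_pos H i
  have h8 : |z i - z' i| ≤ 2 * M := by linarith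
  have h9 : |z i - z' i| ≤ 2 * (M * (N i ^ q)⁻¹) := by linarith
  calc (z i - z' i) ^ 2 = |z i - z' i| * |z i - z' i| := by rw [← sq_abs, sq]
    _ ≤ (2 * M) * (2 * (M * (N i ^ q)⁻¹)) := mul_le_mul h8 h9 (abs_nonneg _) (by positivity)
    _ = _ := by ring

/-- the common estimate -/
lemma main_est (hK : Ker o σ τ A c) {C : ℝ} {p q D : ℕ} (H : Hyp c N C p q D)
    {z z' : Ix J → ℝ → ℝ} (hz : KSol S o σ τ c N T z) (hz' : KSol S o σ τ c N T z')
    (L T' M e0 : ℝ) (hT : T' < T) (hT0 : 0 ≤ T') (hL0 : 0 ≤ L)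
    (hd : ∀ t ∈ Icc 0 T', Dec N p q M (fun a => z a t) ∧ Dec N p q M (fun a => z' a t))
    (hL : ∀ t ∈ Icc 0 T', |∑' i, (z i t - z' i t) *
        (qd c (fun a => z a t) i - qd c (fun a => z' a t) i)|
      ≤ L * ∑' i, (z i t - z' i t) ^ 2)
    (h0 : ∀ P, ∑ i ∈ FP hK P, (z i 0 - z' i 0) ^ 2 = e0) (hLe : L * e0 = 0) :
    ∑' i, (z i T' - z' i T') ^ 2 = e0 := by
  have hs := H.summ
  obtain ⟨K1, hK1⟩ : ∃ K1, K1 = 4 * C * M ^ 3 * (∑' i, (N i ^ q)⁻¹) ^ 2 := ⟨_, rfl⟩
  have hb : Summable (fun i => K1 * (N i ^ q)⁻¹) := hs.mul_left K1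
  have hdl : Summable (fun i => 4 * M ^ 2 * (N i ^ q)⁻¹) := hs.mul_left (4 * M ^ 2)
  let eps : ℕ → ℝ := fun P => ∑' i, K1 * (N i ^ q)⁻¹ - ∑ i ∈ FP hK P, K1 * (N i ^ q)⁻¹
  let del : ℕ → ℝ := fun P =>
    ∑' i, 4 * M ^ 2 * (N i ^ q)⁻¹ - ∑ i ∈ FP hK P, 4 * M ^ 2 * (N i ^ q)⁻¹
  have heps : Tendsto eps atTop (𝓝 0) := by
    have h1 := (hb.hasSum.comp (FP_tendsto hK)).const_sub (∑' i, K1 * (N i ^ q)⁻¹)
    rw [sub_self] at h1
    exact h1
  have hdel : Tendsto del atTop (𝓝 0) := by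
    have h1 := (hdl.hasSum.comp (FP_tendsto hK)).const_sub (∑' i, 4 * M ^ 2 * (N i ^ q)⁻¹)
    rw [sub_self] at h1
    exact h1
  let f : ℕ → ℝ → ℝ := fun P t => ∑ i ∈ FP hK P, (z i t - z' i t) ^ 2 - e0
  let f' : ℕ → ℝ → ℝ := fun P t => 2 * ∑ i ∈ FP hK P, (z i t - z' i t) *
        (qd c (fun a => z a t) i - qd c (fun a => z' a t) i)
  have hder : ∀ P, ∀ t ∈ Ico 0 T, HasDerivWithinAt (f P) (f' P t) (Ico 0 T) t := fun P t ht =>
    (deriv_FP hK hz hz' P t ht).sub_const e0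
  have hsub : Icc 0 T' ⊆ Ico 0 T := fun t ht => ⟨ht.1, lt_of_le_of_lt ht.2 hT⟩
  have key : ∀ P, ‖f P T'‖ ≤ gronwallBound 0 (2 * L) (2 * L * del P + 2 * eps P) T' := by
    intro P
    have h1 := norm_le_gronwallBound_of_norm_deriv_right_le (f := f P) (f' := f' P) (δ := 0)
      (K := 2 * L) (ε := 2 * L * del P + 2 * eps P) (a := 0) (b := T')
      (fun t ht => ((hder P t (hsub ht)).continuousWithinAt).mono hsub)
      (fun t ht => by
        refine (hder P t (hsub ⟨ht.1, ht.2.le⟩)).mono_of_mem_nhdsWithin ?_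
        have : Ico 0 T ∈ 𝓝[≥] t := by
          refine mem_of_superset (Ico_mem_nhdsGE (ht.2.trans hT)) ?_
          exact Ico_subset_Ico_left ht.1
        exact this)
      (by simp only [f]; rw [h0 P]; simp)
      (fun t ht => by
        have htt : t ∈ Icc 0 T' := ⟨ht.1, ht.2.le⟩
        obtain ⟨d1, d2⟩ := hd t htt
        have e1 := part_le (dterm_summ H d1 d2) hb
          (fun i => by rw [hK1]; exact dterm_le H d1 d2 i) (FP hK P)
        have hsq : Summable (fun i => (z i t - z' i t) ^ 2) :=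
          Summable.of_nonneg_of_le (fun i => sq_nonneg _) (w_sq_le H d1 d2) hdl
        have e2 := part_le hsq hdl
          (fun i => by rw [abs_of_nonneg (sq_nonneg _)]; exact w_sq_le H d1 d2 i) (FP hK P)
        have e3 := hL t htt
        have e4 : ∑' i, (z i t - z' i t) ^ 2 ≤ f P t + e0 + del P := by
          have := (abs_le.1 e2).1
          simp only [f, del]
          linarith
        have e5 : L * ∑' i, (z i t - z' i t) ^ 2 ≤ L * ‖f P t‖ + L * del P := by
          have h5 := mul_le_mul_of_nonneg_left e4 hL0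
          have h6 := mul_le_mul_of_nonneg_left (le_abs_self (f P t)) hL0
          rw [Real.norm_eq_abs]
          nlinarith
        have e6 : |∑ i ∈ FP hK P, (z i t - z' i t) *
            (qd c (fun a => z a t) i - qd c (fun a => z' a t) i)| ≤
            L * ‖f P t‖ + L * del P + eps P := by
          have h7 := abs_sub_abs_le_abs_sub (∑ i ∈ FP hK P, (z i t - z' i t) *
            (qd c (fun a => z a t) i - qd c (fun a => z' a t) i)) (∑' i, (z i t - z' i t) *
            (qd c (fun a => z a t) i - qd c (fun a => z' a t) i))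
          have h8 : |∑ i ∈ FP hK P, (z i t - z' i t) *
              (qd c (fun a => z a t) i - qd c (fun a => z' a t) i) - ∑' i, (z i t - z' i t) *
              (qd c (fun a => z a t) i - qd c (fun a => z' a t) i)| ≤ eps P := e1
          linarith
        show ‖2 * _‖ ≤ _
        rw [norm_mul, Real.norm_eq_abs, Real.norm_eq_abs, abs_of_pos (by norm_num : (0:ℝ) < 2)]
        linarith)
      T' ⟨hT0, le_rfl⟩
    rwa [sub_zero] at h1
  have hlim : Tendsto (fun P => gronwallBound 0 (2 * L) (2 * L * del P + 2 * eps P) T') atTop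
      (𝓝 0) := by
    have h1 : Tendsto (fun P => 2 * L * del P + 2 * eps P) atTop (𝓝 0) := by
      have := (hdel.const_mul (2 * L)).add (heps.const_mul 2)
      simpa using this
    have h2 := ((gronwallBound_continuous_ε 0 (2 * L) T').tendsto 0).comp h1
    rw [gronwallBound_ε0_δ0] at h2
    exact h2
  have h3 : Tendsto (fun P => f P T') atTop (𝓝 0) :=
    squeeze_zero_norm key hlim
  obtain ⟨d1, d2⟩ := hd T' ⟨hT0, le_rfl⟩
  have hsq : Summable (fun i => (z i T' - z' i T') ^ 2) :=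
    Summable.of_nonneg_of_le (fun i => sq_nonneg _) (w_sq_le H d1 d2) hdl
  have h4 : Tendsto (fun P => f P T') atTop (𝓝 (∑' i, (z i T' - z' i T') ^ 2 - e0)) :=
    (hsq.hasSum.comp (FP_tendsto hK)).sub_const e0
  have h5 := tendsto_nhds_unique h3 h4
  linarith

/-- uniform decay of two solutions -/
lemma two_dec {C : ℝ} {p q D : ℕ} (H : Hyp c N C p q D)
    {z z' : Ix J → ℝ → ℝ} (hz : KSol S o σ τ c N T z) (hz' : KSol S o σ τ c N T z')
    (T' : ℝ) (hT : T' < T) :
    ∃ M, ∀ t ∈ Icc 0 T', Dec N p q M (fun a => z a t) ∧ Dec N p q M (fun a => z' a t) := by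
  obtain ⟨M1, h1⟩ := hz.reg (p + q) T' hT
  obtain ⟨M2, h2⟩ := hz'.reg (p + q) T' hT
  exact ⟨max M1 M2, fun t ht => ⟨fun i => (h1 t ht i).trans (le_max_left _ _),
    fun i => (h2 t ht i).trans (le_max_right _ _)⟩⟩

end Time

/-- **EK-UNI** -/
theorem t_UNI : S_UNI := by
  intro J o σ τ A c S N T hK hW
  obtain ⟨C, p, q, D, H⟩ := hyp hK hW
  constructor
  · intro z hz hi t ht
    obtain ⟨M, hM⟩ := two_dec H hz (zero_sol (S := S) (σ := σ) (τ := τ)) t ht.2
    have h1 := main_est hK H hz (zero_sol (S := S) (σ := σ) (τ := τ)) 0 t M 1 ht.2 ht.1 le_rfl hM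
      (by
        intro r hr
        rw [zero_mul]
        have h2 := anti_zero H (hM r hr).1 (hM r hr).1
        have h3 : ∀ i, qd c (fun _ : Ix J => (0 : ℝ)) i = 0 := by
          intro i
          simp [qd]
        have h4 : (fun i => (z i r - 0) * (qd c (fun a => z a r) i
            - qd c (fun _ : Ix J => (0 : ℝ)) i)) = fun i =>
            (fun a => z a r) i * qd2 c (fun a => z a r) (fun a => z a r) i := by
          ext i
          rw [h3, sub_zero, sub_zero]
          rfl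
        rw [h4, h2, abs_zero])
      (by
        intro P
        obtain ⟨i1, i2, i3⟩ := hi
        have hm : (Sum.inl 0 : Ix J) ∈ FP hK P := (mem_FP hK P _).2 (Nat.zero_le _)
        rw [Finset.sum_eq_single_of_mem _ hm]
        · rw [i1]
          norm_num
        · intro i _ hne
          have : z i 0 = 0 := by
            rcases i with n | j
            · cases n with
              | zero => exact absurd rfl hne
              | succ n => exact i2 n
            · exact i3 j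
          rw [this]
          norm_num)
      (by norm_num)
    simp only [sub_zero] at h1
    exact ⟨sq_summ H (hM t ⟨ht.1, le_rfl⟩).1, h1⟩
  · intro z z' hz hz' h0 i t ht
    obtain ⟨M, hM⟩ := two_dec H hz hz' t ht.2
    have hM0 : 0 ≤ M := M_nonneg H (hM t ⟨ht.1, le_rfl⟩).1 i
    have hS : 0 ≤ ∑' i, (N i ^ q)⁻¹ := tsum_nonneg fun i => (s_pos H i).le
    have h1 := main_est hK H hz hz' (C * D * M * ∑' i, (N i ^ q)⁻¹) t M 0 ht.2 ht.1
      (mul_nonneg (mul_nonneg (mul_nonneg H.C0 (Nat.cast_nonneg _)) hM0) hS) hM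
      (fun r hr => diff_le H (hM r hr).1 (hM r hr).2)
      (by
        intro P
        apply Finset.sum_eq_zero
        intro i _
        rw [h0 i]
        ring)
      (by ring)
    have hsq : Summable (fun i => (z i t - z' i t) ^ 2) :=
      Summable.of_nonneg_of_le (fun i => sq_nonneg _)
        (w_sq_le H (hM t ⟨ht.1, le_rfl⟩).1 (hM t ⟨ht.1, le_rfl⟩).2)
        (H.summ.mul_left (4 * M ^ 2))
    have h2 := (hasSum_zero_iff_of_nonneg (fun i => sq_nonneg _)).1 (h1 ▸ hsq.hasSum)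
    have h3 := congrFun h2 i
    have h4 : (z i t - z' i t) ^ 2 = 0 := h3
    have h5 : z i t - z' i t = 0 := by
      simpa using h4
    linarith

end Pool.Agent.Y259.EK
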